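import Pool.Agent.H43.BZ.Stm3

/-! BZ3-LP: second derivatives of the weight. -/

set_option autoImplicit false

open MeasureTheory Metric Set Filter Topology
open scoped RealInnerProductSpace ENNReal

namespace Pool.Agent.H872.BZ

open Pool.Agent.H43.BZ

variable {d : ℕ}

theorem Dpos (v : E d) : 0 < 1 + ‖v‖ ^ 2 := by positivity

/-- derivative of an inverse power of `1 + ‖y‖²` -/
theorem hasF (n : ℕ) (v : E d) :
    HasFDerivAt (fun y : E d => ((1 + ‖y‖ ^ 2) ^ n)⁻¹)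
      ((-(2 * (n : ℝ)) * ((1 + ‖v‖ ^ 2) ^ (n + 1))⁻¹) • innerSL ℝ v) v := by
  have h1 : HasFDerivAt (fun y : E d => 1 + ‖y‖ ^ 2) (2 • innerSL ℝ v) v :=
    (hasStrictFDerivAt_norm_sq v).hasFDerivAt.const_add 1
  have hx : (1 + ‖v‖ ^ 2 : ℝ) ≠ 0 := (Dpos v).ne'
  have h2 : HasDerivAt (fun x : ℝ => (x ^ n)⁻¹)
      (-(n : ℝ) * ((1 + ‖v‖ ^ 2) ^ (n + 1))⁻¹) (1 + ‖v‖ ^ 2) := by
    have h3 := hasDerivAt_zpow (-(n : ℤ)) (1 + ‖v‖ ^ 2) (Or.inl hx)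
    have e1 : (fun x : ℝ => x ^ (-(n : ℤ))) = fun x : ℝ => (x ^ n)⁻¹ := by
      funext x
      rw [zpow_neg, zpow_natCast]
    have e2 : ((-(n : ℤ) : ℤ) : ℝ) * (1 + ‖v‖ ^ 2) ^ (-(n : ℤ) - 1) =
        -(n : ℝ) * ((1 + ‖v‖ ^ 2) ^ (n + 1))⁻¹ := by
      have e3 : (-(n : ℤ) - 1) = -((n + 1 : ℕ) : ℤ) := by
        push_cast
        ring
      rw [e3, zpow_neg, zpow_natCast]
      push_cast
      ring
    rw [e1, e2] at h3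
    exact h3
  have h4 := h2.comp_hasFDerivAt v h1
  have e5 : (-(n : ℝ) * ((1 + ‖v‖ ^ 2) ^ (n + 1))⁻¹) • ((2 : ℕ) • innerSL ℝ v) =
      (-(2 * (n : ℝ)) * ((1 + ‖v‖ ^ 2) ^ (n + 1))⁻¹) • innerSL ℝ v := by
    rw [← Nat.cast_smul_eq_nsmul ℝ 2, smul_smul]
    congr 1
    push_cast
    ring
  rw [e5] at h4
  exact h4

theorem fd1 (n : ℕ) (N : ℝ) :
    fderiv ℝ (fun y : E d => N * ((1 + ‖y‖ ^ 2) ^ n)⁻¹) =
      fun v => ((-(2 * (n : ℝ)) * N) * ((1 + ‖v‖ ^ 2) ^ (n + 1))⁻¹) • innerSL ℝ v := by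
  funext v
  have h := ((hasF n v).const_mul N).fderiv
  rw [h, smul_smul]
  congr 1
  ring

theorem d2f (n : ℕ) (N : ℝ) (v h : E d) :
    d2 (fun y : E d => N * ((1 + ‖y‖ ^ 2) ^ n)⁻¹) v h =
      4 * n * (n + 1) * N * ((1 + ‖v‖ ^ 2) ^ (n + 2))⁻¹ * ⟪v, h⟫ ^ 2 -
        2 * n * N * ((1 + ‖v‖ ^ 2) ^ (n + 1))⁻¹ * ‖h‖ ^ 2 := by
  unfold d2
  rw [fd1]
  have h1 := (hasF (n + 1) v).const_mul (-(2 * (n : ℝ)) * N)
  have h2 : HasFDerivAt (fun y : E d => innerSL ℝ y) (innerSL ℝ) v :=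
    (innerSL ℝ).hasFDerivAt
  have h3 : fderiv ℝ (fun v : E d => (-(2 * (n : ℝ)) * N * ((1 + ‖v‖ ^ 2) ^ (n + 1))⁻¹) •
      (innerSL ℝ v : E d →L[ℝ] ℝ)) v = _ := (h1.smul h2).fderiv
  rw [h3]
  have h5 : ((innerSL ℝ) h : E d →L[ℝ] ℝ) h = ‖h‖ ^ 2 := real_inner_self_eq_norm_sq h
  have h6 : ((innerSL ℝ : E d →L[ℝ] E d →L[ℝ] ℝ) h) h = ‖h‖ ^ 2 := h5
  simp only [add_apply, smul_apply,
    ContinuousLinearMap.smulRight_apply, smul_eq_mul, innerSL_apply_apply]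
  try rw [h5]
  try rw [h6]
  push_cast
  ring

theorem sum_sq (v : E d) : ∑ i : Fin d, ⟪v, EuclideanSpace.single i (1 : ℝ)⟫ ^ 2 = ‖v‖ ^ 2 := by
  rw [EuclideanSpace.norm_sq_eq]
  refine Finset.sum_congr rfl fun i _ => ?_
  rw [EuclideanSpace.inner_single_right]
  simp

theorem LP : S_LP := by
  intro d hd γ N
  have hP : (fun y : E d => N * P d y) =
      fun y : E d => N * ((1 + ‖y‖ ^ 2) ^ (4 * (d + 3)))⁻¹ := rfl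
  refine ⟨?_, ?_⟩
  · rw [hP]
    refine contDiff_const.mul (ContDiff.inv ?_ ?_)
    · exact (contDiff_const.add (contDiff_norm_sq ℝ)).pow _
    · intro x
      have := Dpos x
      positivity
  · intro v z
    have hn : ((4 * (d + 3) : ℕ) : ℝ) = 4 * ((d : ℝ) + 3) := by push_cast; ring
    unfold aHess
    rw [hP]
    simp only [d2f, hn]
    rw [Finset.sum_sub_distrib, ← Finset.mul_sum, sum_sq]
    have hs : ∑ i : Fin d, 2 * (4 * ((d : ℝ) + 3)) * N *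
        ((1 + ‖v‖ ^ 2) ^ (4 * (d + 3) + 1))⁻¹ * ‖(EuclideanSpace.single i (1 : ℝ) : E d)‖ ^ 2 =
        d * (2 * (4 * ((d : ℝ) + 3)) * N * ((1 + ‖v‖ ^ 2) ^ (4 * (d + 3) + 1))⁻¹) := by
      simp
    rw [hs]
    have hD : (1 + ‖v‖ ^ 2 : ℝ) ≠ 0 := (Dpos v).ne'
    have hPv : P d v = ((1 + ‖v‖ ^ 2) ^ (4 * (d + 3)))⁻¹ := rfl
    rw [hPv, pow_add (1 + ‖v‖ ^ 2) (4 * (d + 3)) 2, pow_add (1 + ‖v‖ ^ 2) (4 * (d + 3)) 1]
    generalize (1 + ‖v‖ ^ 2 : ℝ) ^ (4 * (d + 3)) = X at *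
    rw [mul_inv, mul_inv, pow_one]
    field_simp
    ring

end Pool.Agent.H872.BZ

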